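import Pool.Agent.H899SOA.Truth

/-!
# A `Π¹₁`-sound, `Π¹₁`-definable extension of `Σ¹₁-AC₀` proving its own `Π¹₁`-soundness

All definitions (language, calculus, `Σ¹₁-AC₀`, Gödel numbers, arithmetised provability and
truth) are in `Pool.Agent.H899SOA.Defs`.
-/

namespace Pool.Agent.Results.MP_51f008_lc.PiOneOneDefinition

open Pool.Agent.H899SOA

/-- There are arithmetised provability and `Π¹₁` truth predicates, and for each choice `R` of them
there are a theory `T ⊇ Σ¹₁-AC₀` (with finitely many axioms outside `Σ¹₁-AC₀`) and a `Π¹₁` formula `τ(v₀)` defining (the set of codes of axioms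
of) `T` such that every theorem of `T` is true in the standard model (in particular `T` is
`Π¹₁`-sound) and `T` proves the sentence saying that every `Π¹₁` sentence provable from the axioms
defined by `τ` is true. -/
theorem result :
    Nonempty Arithmetization ∧
    ∀ R : Arithmetization, ∃ (T : Set Fm) (τ : Fm),
      (∀ φ ∈ T, φ.Sentence) ∧
      Sigma11AC0 ⊆ T ∧
      (T \ Sigma11AC0).Finite ∧
      (∀ φ, Derives T φ → φ.True) ∧
      τ.IsPi11 ∧ (∀ x, τ.Free x → x = 0) ∧ (∀ X, ¬ τ.FreeS X) ∧
      (∀ n, τ.Holds n 0 0 ↔ ∃ φ ∈ T, n = φ.code) ∧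
      Derives T (R.Reflection τ) := by
  refine ⟨exists_arithmetization, fun R => ?_⟩
  obtain ⟨ax, h1, h2, h3, h4⟩ := exists_ax
  exact Arithmetization.main h1 h2 h3 h4

end Pool.Agent.Results.MP_51f008_lc.PiOneOneDefinition
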